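import Pool.Agent.Lib.MP_a51368_pr.Neg.Spec3
import Pool.Agent.Lib.MP_a51368_pr.Neg.Adapted
import Pool.Agent.Lib.MP_a51368_pr.Sel

/-!
# An infinite oriented cluster in the column of one vertex
-/

open MeasureTheory ProbabilityTheory Set Filter Topology

noncomputable section

namespace CausalPerc.Thr

open CausalPerc.Neg

/-- The event that the vertex `(0,0)` has `h` children and the tree edges to them are open. -/
def nd0 (p : ℝ) (h : ℕ) : Set Nd :=
  {x | x.1 = h ∧ ∀ j ∈ Finset.range h, (((x.2 (j + 1) : unitInterval)) : ℝ) ≤ p}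

theorem meas_nd0 (p : ℝ) (h : ℕ) : MeasurableSet (nd0 p h) := by
  have : nd0 p h = (Prod.fst ⁻¹' {h}) ∩ ⋂ j ∈ Finset.range h,
      {x : Nd | (((x.2 (j + 1) : unitInterval)) : ℝ) ≤ p} := by
    ext x
    simp only [nd0, mem_ofPred_eq, mem_inter_iff, mem_preimage, mem_singleton_iff, mem_iInter]
  rw [this]
  refine (measurable_fst (measurableSet_singleton h)).inter ?_
  refine Finset.measurableSet_biInter _ fun j _ => ?_
  exact measurableSet_le (measurable_subtype_coe.comp ((measurable_pi_apply _).comp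
    measurable_snd)) measurable_const

theorem nd0_pos {α p : ℝ} (h0 : 0 < α) (h1 : α < 1) (hp : 0 < p) (h : ℕ) :
    0 < ndLaw α (nd0 p h) := by
  have : GoodParam α := ⟨h0, h1⟩
  have e1 : nd0 p h = ({h} : Set ℕ) ×ˢ (Set.pi ((Finset.range h).image (· + 1) : Finset ℕ)
      fun _ => {x : unitInterval | (x : ℝ) ≤ p}) := by
    ext x
    simp only [nd0, mem_ofPred_eq, mem_prod, mem_singleton_iff, Set.mem_pi, Finset.coe_image,
      Set.mem_image, Finset.mem_coe]
    refine and_congr_right fun _ => ⟨?_, ?_⟩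
    · rintro h2 _ ⟨j, hj, rfl⟩
      exact h2 j hj
    · intro h2 j hj
      exact h2 (j + 1) ⟨j, hj, rfl⟩
  rw [e1]
  unfold ndLaw
  rw [Measure.prod_prod, Measure.infinitePi_pi _ fun _ _ => mLe p, Finset.prod_const,
    geo_singleton]
  have hv : 0 < volume {x : unitInterval | (x : ℝ) ≤ p} := by
    by_cases hp1 : p ≤ 1
    · rw [volume_le hp.le hp1]
      exact ENNReal.ofReal_pos.2 hp
    · have : {x : unitInterval | (x : ℝ) ≤ p} = univ := by
        ext x
        simp only [mem_ofPred_eq, mem_univ, iff_true]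
        have := x.2.2
        linarith
      rw [this]
      simp
  refine ENNReal.mul_pos ?_ (pow_ne_zero _ hv.ne')
  rw [ne_eq, ENNReal.ofReal_eq_zero, not_le]
  have : 0 < 1 - α := by linarith
  positivity

/-- The row version. -/
def A0 (p : ℝ) (h : ℕ) : Set Arr := {ω | ω 0 0 ∈ nd0 p h}

theorem meas_A0 (p : ℝ) (h : ℕ) : MeasurableSet (A0 p h) :=
  ((measurable_pi_apply 0).comp (measurable_pi_apply 0)) (meas_nd0 p h)

theorem A0_pos {α p : ℝ} (h0 : 0 < α) (h1 : α < 1) (hp : 0 < p) (h : ℕ) :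
    0 < arrLaw α (A0 p h) := by
  have := Adapted.nd_prob h0.le h1
  have := Adapted.row_prob h0.le h1
  have e1 : arrLaw α (A0 p h) = ndLaw α (nd0 p h) := by
    have h2 : (arrLaw α).map (fun ω : Arr => ω 0) = rowLaw α :=
      Measure.infinitePi_map_eval (fun _ : ℕ => rowLaw α) 0
    have h3 : (rowLaw α).map (fun r : Row => r 0) = ndLaw α :=
      Measure.infinitePi_map_eval (fun _ : ℤ => ndLaw α) 0
    have hm1 : Measurable (fun r : Row => r 0) := measurable_pi_apply 0
    have hm2 : Measurable (fun ω : Arr => ω 0) := measurable_pi_apply 0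
    rw [← h3, ← h2, Measure.map_map hm1 hm2, Measure.map_apply (hm1.comp hm2) (meas_nd0 p h)]
    rfl
  rw [e1]
  exact nd0_pos h0 h1 hp h

/-- oriented walks of the shifted strip are oriented walks of the strip -/
theorem oconn_of_shift {E : Strip} {s n : ℕ} {R R' : Set (ℕ × ℤ)} {u v : ℕ × ℤ}
    (hR : ∀ v ∈ R', (s + v.1, v.2) ∈ R) (hs : (E.shift s).OConn n R' u v) :
    E.OConn (s + n) R (s + u.1, u.2) (s + v.1, v.2) := by
  induction hs with
  | refl => exact .refl
  | tail _ hbc ih =>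
    refine ih.tail ?_
    obtain ⟨h1, h2, h3⟩ := hbc
    refine ⟨hR _ h1, hR _ h2, ?_⟩
    rcases h3 with h | h | h
    · cases h with
      | mk t x y ht hv ho => exact Or.inl (.mk (s + t) x y (by omega) hv ho)
    · cases h with
      | mk t x ht ho => exact Or.inr (Or.inl (.mk (s + t) x (by omega) ho))
    · cases h with
      | mk t x ht ho => exact Or.inr (Or.inr (.mk (s + t) x (by omega) ho))

/-- The infinite crossing event. -/
def G (p : ℝ) (h : ℕ) : Set Arr := {ω | ∀ n, (strip p ω).OCross 0 h n}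

theorem meas_G (hM : MeasStmt) (p : ℝ) (h : ℕ) : MeasurableSet (G p h) := by
  have : G p h = ⋂ n, {ω | (strip p ω).OCross 0 h n} := by
    ext ω; simp [G]
  rw [this]
  exact MeasurableSet.iInter fun n => (hM.2.2.2 p n 0 h).2.2.2.2.2.1

theorem one_of_A0 (hSS : StripShiftStmt) {p : ℝ} {h : ℕ} {ω : Arr} (h1 : ω ∈ A0 p h)
    (h2 : post 1 ω ∈ G p h) : ω ∈ G p 1 := by
  intro n
  have hS0 : (strip p ω).S 0 0 = 0 := ps_zero _
  have hS1 : (strip p ω).S 0 1 = h := by
    have h3 := ps_succ (xi ω 0) 0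
    rw [ps_zero, zero_add, zero_add] at h3
    show ps (xi ω 0) 1 = h
    rw [h3]
    show ((ω 0 0).1 : ℤ) = h
    rw [h1.1]
  rcases Nat.eq_zero_or_pos n with rfl | hn
  · exact ⟨0, 0, le_rfl, by norm_num, .refl⟩
  obtain ⟨m, rfl⟩ := Nat.exists_eq_add_of_le hn
  obtain ⟨x, y, hx0, hxh, hc⟩ := h2 m
  rw [hSS.2.1] at hc
  have hD0 : (strip p ω).D 1 0 = 0 := hS0
  have hD1 : (strip p ω).D 1 ((1 : ℕ) : ℤ) = h := by
    show (strip p ω).S 0 ((1 : ℕ) : ℤ) = h
    exact_mod_cast hS1
  have hcol : ∀ v ∈ ((strip p ω).shift 1).col 0 h, (1 + v.1, v.2) ∈ (strip p ω).col 0 (1 : ℕ) := by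
    rintro ⟨t, z⟩ hv
    have h4 := (Strip.mem_col_shift (E := strip p ω) (a := 0) (b := ((1 : ℕ) : ℤ)) (s := 1)
      (t := t) (x := z)).1
    rw [hD0, hD1] at h4
    exact h4 hv
  have h5 := oconn_of_shift hcol hc
  refine ⟨0, y, le_rfl, by norm_num, Relation.ReflTransGen.head ?_ h5⟩
  refine ⟨⟨le_rfl, by show (0 : ℤ) < ((1 : ℕ) : ℤ); norm_num⟩, ?_, Or.inl ?_⟩
  · show (strip p ω).D 1 0 ≤ x ∧ x < (strip p ω).D 1 ((1 : ℕ) : ℤ)
    rw [hD0, hD1]
    exact ⟨hx0, hxh⟩
  · refine Strip.Up1.mk 0 0 x (by omega) ⟨by rw [hS0]; exact hx0, ?_⟩ ?_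
    · rw [zero_add, hS1]; exact hxh.le
    · show (((ω 0 0).2 ((x - ps (xi ω 0) 0).toNat + 1) : unitInterval) : ℝ) ≤ p
      rw [ps_zero, sub_zero]
      refine h1.2 x.toNat (Finset.mem_range.2 ?_)
      omega

/-- Positive probability of an infinite oriented cluster in the column of ONE vertex. -/
theorem colOne (hM : MeasStmt) (hSS : StripShiftStmt) (hSp : SplitStmt) {α p : ℝ} (h0 : 0 < α)
    (h1 : α < 1) (hp : 0 < p) (hC : ColInf α p) : 0 < arrLaw α (G p 1) := by
  obtain ⟨h, hpos⟩ := hC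
  have hprob : IsProbabilityMeasure (arrLaw α) := Adapted.arr_prob h0.le h1
  have hG := meas_G hM p h
  have hA := meas_A0 p h
  have key := hSp α h0.le h1 1
    (fun ω η => (A0 p h).indicator (fun _ => (1 : ENNReal)) ω * (G p h).indicator (fun _ => 1) η)
    ?_ ?_
  · have e1 : ∫⁻ ω, ∫⁻ η, (A0 p h).indicator (fun _ => (1 : ENNReal)) ω *
        (G p h).indicator (fun _ => 1) η ∂arrLaw α ∂arrLaw α =
        arrLaw α (A0 p h) * arrLaw α (G p h) := by
      have e2 : ∀ ω : Arr, ∫⁻ η, (A0 p h).indicator (fun _ => (1 : ENNReal)) ω *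
          (G p h).indicator (fun _ => 1) η ∂arrLaw α =
          (A0 p h).indicator (fun _ => (1 : ENNReal)) ω * arrLaw α (G p h) := by
        intro ω
        rw [lintegral_const_mul _ (measurable_const.indicator hG), lintegral_indicator hG]
        simp
      simp_rw [e2]
      rw [lintegral_mul_const _ (measurable_const.indicator hA), lintegral_indicator hA]
      simp
    rw [e1] at key
    have e3 : ∫⁻ ω, (A0 p h).indicator (fun _ => (1 : ENNReal)) ω *
        (G p h).indicator (fun _ => 1) (post 1 ω) ∂arrLaw α ≤ arrLaw α (G p 1) := by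
      have e4 : arrLaw α (G p 1) = ∫⁻ ω, (G p 1).indicator (fun _ => (1 : ENNReal)) ω ∂arrLaw α := by
        rw [lintegral_indicator (meas_G hM p 1)]
        simp
      rw [e4]
      refine lintegral_mono fun ω => ?_
      by_cases ha : ω ∈ A0 p h
      · by_cases hb : post 1 ω ∈ G p h
        · rw [Set.indicator_of_mem ha, Set.indicator_of_mem hb,
            Set.indicator_of_mem (one_of_A0 hSS ha hb)]
          simp
        · rw [Set.indicator_of_notMem hb]
          simp
      · rw [Set.indicator_of_notMem ha]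
        simp
    rw [key] at e3
    refine lt_of_lt_of_le ?_ e3
    exact ENNReal.mul_pos (A0_pos h0 h1 hp h).ne' hpos.ne'
  · exact ((measurable_const.indicator hA).comp measurable_fst).mul
      ((measurable_const.indicator hG).comp measurable_snd)
  · intro ω ω' η hω
    have h3 : ω 0 = ω' 0 := hω 0 (by norm_num)
    have h4 : (ω ∈ A0 p h) ↔ (ω' ∈ A0 p h) := by
      show ω 0 0 ∈ nd0 p h ↔ ω' 0 0 ∈ nd0 p h
      rw [h3]
    by_cases h5 : ω ∈ A0 p h
    · simp only [Set.indicator_of_mem h5, Set.indicator_of_mem (h4.1 h5)]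
    · simp only [Set.indicator_of_notMem h5, Set.indicator_of_notMem (fun h6 => h5 (h4.2 h6))]

end CausalPerc.Thr
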