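import Pool.Agent.Lib.MP_a51368_pr.Neg.Unroll
import Pool.Agent.Lib.MP_a51368_pr.Neg.ColDep

/-!
# The cone of a vertex as a column of the unrolled strip
-/

open Set

namespace CausalPerc.Thr

open CausalPerc.Neg

/-! ### Lists of descendants -/

/-- The descendants after `t` generations of the members of a list. -/
def gen (κ : Vert → ℕ) : ℕ → List Vert → List Vert
  | 0, A => A
  | t + 1, A => (gen κ t A).flatMap (children κ)

theorem gen_append (κ : Vert → ℕ) (t : ℕ) (A B : List Vert) :
    gen κ t (A ++ B) = gen κ t A ++ gen κ t B := by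
  induction t with
  | zero => rfl
  | succ t ih => simp only [gen, ih, List.flatMap_append]

theorem level_add (κ : Vert → ℕ) (r t : ℕ) : level κ (r + t) = gen κ t (level κ r) := by
  induction t with
  | zero => rfl
  | succ t ih =>
    show (level κ (r + t)).flatMap (children κ) = (gen κ t (level κ r)).flatMap (children κ)
    rw [ih]

theorem children_cone (κ : Vert → ℕ) (u v : Vert) :
    children κ (u ++ v) = (children (fun x => κ (x ++ v)) u).map (· ++ v) := by
  simp [children, Function.comp_def]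

theorem gen_single (κ : Vert → ℕ) (v : Vert) (t : ℕ) :
    gen κ t [v] = (level (fun x => κ (x ++ v)) t).map (· ++ v) := by
  induction t with
  | zero => simp [gen, level]
  | succ t ih =>
    show (gen κ t [v]).flatMap (children κ) = _
    rw [ih, level_succ, List.flatMap_map, List.map_flatMap]
    congr 1
    funext u
    exact children_cone κ u v

theorem level_split {κ : Vert → ℕ} {r : ℕ} {A B : List Vert} {v : Vert}
    (hL : level κ r = A ++ v :: B) (t : ℕ) :
    level κ (r + t) = gen κ t A ++ ((level (fun x => κ (x ++ v)) t).map (· ++ v) ++ gen κ t B) := by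
  rw [level_add, hL, gen_append, show v :: B = [v] ++ B from rfl, gen_append, gen_single]

theorem level_ne_of_le {κ : Vert → ℕ} {s t : ℕ} (hst : s ≤ t) (h : level κ t ≠ []) :
    level κ s ≠ [] := by
  induction hst with
  | refl => exact h
  | step _ ih =>
    apply ih
    intro h0
    rw [Nat.succ_eq_add_one, level_succ, h0] at h
    simp at h

variable {ω : Conf} {r : ℕ} {A B : List Vert} {v : Vert}

theorem kids_coneAt (ω : Conf) (v : Vert) : kids (coneAt v ω) = fun x => kids ω (x ++ v) := rfl

theorem lt_uZ (hL : level (kids ω) r = A ++ v :: B) {t j : ℕ}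
    (hj : j < (level (kids (coneAt v ω)) t).length) :
    (gen (kids ω) t A).length + j < uZ ω r t := by
  show _ < (level (kids ω) (r + t)).length
  rw [level_split hL t, List.length_append, List.length_append, List.length_map]
  rw [kids_coneAt] at hj
  omega

theorem uD_gen (hL : level (kids ω) r = A ++ v :: B) (t : ℕ)
    (hne : ∀ s < t, level (kids (coneAt v ω)) s ≠ []) :
    uD ω r t (A.length : ℤ) = ((gen (kids ω) t A).length : ℤ) := by
  induction t with
  | zero => rfl
  | succ t ih =>
    show uS ω r t (uD ω r t (A.length : ℤ)) = _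
    rw [ih fun s hs => hne s (by omega)]
    have h1 : 0 < (level (kids (coneAt v ω)) t).length :=
      List.length_pos_of_ne_nil (hne t (by omega))
    have h2 := lt_uZ hL h1
    rw [uS_rep (q := 0) (j := (gen (kids ω) t A).length) (by omega) (by simp), zero_mul, zero_add]
    congr 1
    rw [level_split hL t]
    show psum (kids ω) _ _ = ((gen (kids ω) t A).flatMap (children (kids ω))).length
    rw [← psum_length]
    unfold psum
    rw [List.take_left', List.take_length]
    rfl

theorem uvert_cone (hL : level (kids ω) r = A ++ v :: B) {t j : ℕ}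
    (hj : j < (level (kids (coneAt v ω)) t).length) :
    uvert ω r (t, (j : ℤ) + uD ω r t (A.length : ℤ)) =
      (level (kids (coneAt v ω)) t)[j] ++ v := by
  have hne : ∀ s < t, level (kids (coneAt v ω)) s ≠ [] := fun s hs =>
    level_ne_of_le hs.le (List.ne_nil_of_length_pos (by omega))
  rw [uD_gen hL t hne, uvert_rep (q := 0) (j := (gen (kids ω) t A).length + j) (lt_uZ hL hj)
    (by push_cast; ring)]
  have h1 := level_split hL t
  have h2 : (level (kids ω) (r + t))[(gen (kids ω) t A).length + j]? =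
      some ((level (kids (coneAt v ω)) t)[j] ++ v) := by
    rw [h1, List.getElem?_append_right (by omega), Nat.add_sub_cancel_left,
      List.getElem?_append_left (by rw [List.length_map]; exact hj), List.getElem?_map]
    rw [← kids_coneAt, List.getElem?_eq_getElem hj]
    rfl
  rw [List.getElem?_eq_getElem (lt_uZ hL hj)] at h2
  exact Option.some_injective _ h2

/-- The cone at the root as an array; only the column of `[0,1)` matters. -/
def carr (ω : Conf) : Arr := fun t x => unode ω ((level (kids ω) t).getD x.toNat [])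

theorem carr_eq (ω : Conf) {t j : ℕ} (hj : j < (level (kids ω) t).length) :
    carr ω t (j : ℤ) = unode ω ((level (kids ω) t)[j]) := by
  unfold carr
  rw [Int.toNat_natCast, List.getD_eq_getElem _ _ hj]

theorem ps_carr (ω : Conf) (t j : ℕ) (hj : j ≤ (level (kids ω) t).length) :
    ps (xi (carr ω) t) (j : ℤ) = (psum (kids ω) (level (kids ω) t) j : ℤ) := by
  induction j with
  | zero => rw [psum_zero]; exact ps_zero _
  | succ j ih =>
    have h1 : j < (level (kids ω) t).length := by omega
    rw [Nat.cast_succ, ps_succ, ih h1.le, psum_succ h1]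
    push_cast
    congr 1
    show ((carr ω t (j : ℤ)).1 : ℤ) = _
    rw [carr_eq ω h1]
    rfl

theorem DD_carr_one (ω : Conf) (t : ℕ) : DD (carr ω) t 1 = ((level (kids ω) t).length : ℤ) := by
  induction t with
  | zero => simp [DD, level]
  | succ t ih =>
    show ps (xi (carr ω) t) (DD (carr ω) t 1) = _
    rw [ih, ps_carr ω t _ le_rfl, psum_length]
    rfl

/-! ### Events of the column of one vertex -/

/-- Agreement in the column of `[0,1)`, except for the horizontal edge of the vertex `(0,0)`. -/
def Agr1 (n : ℕ) (a b : Arr) : Prop :=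
  ∀ t < n, ∀ x, 0 ≤ x → x < DD a t 1 → (a t x).1 = (b t x).1 ∧
    (∀ j, (a t x).2 (j + 1) = (b t x).2 (j + 1)) ∧ (1 ≤ t → (a t x).2 0 = (b t x).2 0)

theorem ps_congr {f g : ℤ → ℕ} {x : ℤ} (hx : 0 ≤ x) (h : ∀ i, 0 ≤ i → i < x → f i = g i) :
    ps f x = ps g x := by
  unfold ps
  have h1 : Finset.Ico x 0 = ∅ := Finset.Ico_eq_empty (by omega)
  rw [h1, Finset.sum_empty, Finset.sum_empty]
  congr 1
  refine Finset.sum_congr rfl fun i hi => ?_
  rw [Finset.mem_Ico] at hi
  rw [h i hi.1 hi.2]

theorem ps_nonneg {f : ℤ → ℕ} {x : ℤ} (hx : 0 ≤ x) : 0 ≤ ps f x := by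
  unfold ps
  have h1 : Finset.Ico x 0 = ∅ := Finset.Ico_eq_empty (by omega)
  rw [h1, Finset.sum_empty, sub_zero]
  exact Finset.sum_nonneg fun i _ => Int.natCast_nonneg _

theorem DD_nonneg (a : Arr) (t : ℕ) : 0 ≤ DD a t 1 := by
  induction t with
  | zero => exact zero_le_one
  | succ t ih => exact ps_nonneg ih

theorem Agr1.dd {n : ℕ} {a b : Arr} (h : Agr1 n a b) : ∀ t ≤ n, DD a t 1 = DD b t 1 := by
  intro t
  induction t with
  | zero => intro _; rfl
  | succ t ih =>
    intro ht
    show ps (xi a t) (DD a t 1) = ps (xi b t) (DD b t 1)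
    rw [← ih (by omega)]
    exact ps_congr (DD_nonneg a t) fun i h0 h1 => (h t (by omega) i h0 h1).1

theorem Agr1.symm {n : ℕ} {a b : Arr} (h : Agr1 n a b) : Agr1 n b a := by
  intro t ht x h0 h1
  rw [← h.dd t ht.le] at h1
  obtain ⟨h2, h3, h4⟩ := h t ht x h0 h1
  exact ⟨h2.symm, fun j => (h3 j).symm, fun h => (h4 h).symm⟩

/-- Change of the label `0` of the vertex `(0,0)`. -/
def upd (a : Arr) (c : unitInterval) : Arr := fun t x =>
  if t = 0 ∧ x = 0 then ((a 0 0).1, fun j => if j = 0 then c else (a 0 0).2 j) else a t x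

theorem upd_fst (a : Arr) (c : unitInterval) (t : ℕ) (x : ℤ) : (upd a c t x).1 = (a t x).1 := by
  unfold upd
  split_ifs with h
  · obtain ⟨rfl, rfl⟩ := h; rfl
  · rfl

theorem upd_succ (a : Arr) (c : unitInterval) (t : ℕ) (x : ℤ) (j : ℕ) :
    (upd a c t x).2 (j + 1) = (a t x).2 (j + 1) := by
  unfold upd
  split_ifs with h
  · obtain ⟨rfl, rfl⟩ := h
    simp
  · rfl

theorem upd_of_pos (a : Arr) (c : unitInterval) {t : ℕ} (ht : 1 ≤ t) (x : ℤ) :
    upd a c t x = a t x := by
  unfold upd
  rw [if_neg (by omega)]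

theorem xi_upd (a : Arr) (c : unitInterval) (t : ℕ) : xi (upd a c) t = xi a t := by
  funext x
  exact upd_fst a c t x

theorem DD_upd (a : Arr) (c : unitInterval) (t : ℕ) (x : ℤ) : DD (upd a c) t x = DD a t x := by
  induction t with
  | zero => rfl
  | succ t ih =>
    show ps (xi (upd a c) t) (DD (upd a c) t x) = ps (xi a t) (DD a t x)
    rw [ih, xi_upd]

theorem ocross_upd {p : ℝ} {a : Arr} (c : unitInterval) {n : ℕ}
    (h : (strip p a).OCross 0 1 n) : (strip p (upd a c)).OCross 0 1 n := by
  obtain ⟨x, y, h1, h2, h3⟩ := h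
  refine ⟨x, y, h1, h2, ?_⟩
  have hcol : (strip p (upd a c)).col 0 1 = (strip p a).col 0 1 := by
    ext w
    rw [Strip.mem_col, Strip.mem_col, strip_D, strip_D, strip_D, strip_D, DD_upd, DD_upd]
  have hhor : ∀ u w : ℕ × ℤ, u ∈ (strip p a).col 0 1 → w ∈ (strip p a).col 0 1 →
      (strip p a).Hor1 n u w → (strip p (upd a c)).Hor1 n u w := by
    intro u w hu hw huw
    cases huw with
    | mk t x ht ho =>
      rcases Nat.eq_zero_or_pos t with rfl | ht0
      · exfalso
        have h4 : (0 : ℤ) ≤ x := hu.1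
        have h5 : x + 1 < 1 := hw.2
        omega
      · refine Strip.Hor1.mk t x ht ?_
        show (((upd a c t x).2 0 : unitInterval) : ℝ) ≤ p
        rw [upd_of_pos a c ht0]
        exact ho
  refine Relation.ReflTransGen.mono (fun u w huw => ?_) _ _ h3
  obtain ⟨h4, h5, h6⟩ := huw
  refine ⟨hcol ▸ h4, hcol ▸ h5, ?_⟩
  rcases h6 with h6 | h6 | h6
  · left
    cases h6 with
    | mk t x y ht hv ho =>
      refine Strip.Up1.mk t x y ht ?_ ?_
      · obtain ⟨h7, h8⟩ := hv
        constructor
        · show ps (xi (upd a c) t) x ≤ y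
          rw [xi_upd]; exact h7
        · show y ≤ ps (xi (upd a c) t) (x + 1)
          rw [xi_upd]; exact h8
      · show (((upd a c t x).2 ((y - ps (xi (upd a c) t) x).toNat + 1) : unitInterval) : ℝ) ≤ p
        rw [xi_upd, upd_succ]
        exact ho
  · exact Or.inr (Or.inl (hhor _ _ h4 h5 h6))
  · exact Or.inr (Or.inr (hhor _ _ h5 h4 h6))

theorem ocross_congr (hCD : ColDepStmt) {p : ℝ} {a b : Arr} {n : ℕ} (h : Agr1 n a b)
    (hc : (strip p a).OCross 0 1 n) : (strip p b).OCross 0 1 n := by
  have h1 := ocross_upd ((b 0 0).2 0) hc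
  refine (hCD p n 1 zero_le_one).2.2.1 _ b ?_ h1
  intro t ht x hx0 hx1
  rw [DD_upd] at hx1
  obtain ⟨h2, h3, h4⟩ := h t ht x hx0 hx1
  rcases Nat.eq_zero_or_pos t with rfl | ht0
  · have hx : x = 0 := by
      have h5 : x < 1 := hx1
      omega
    subst hx
    refine Prod.ext ?_ ?_
    · rw [upd_fst]; exact h2
    · funext j
      cases j with
      | zero => simp [upd]
      | succ j => rw [upd_succ]; exact h3 j
  · rw [upd_of_pos _ _ ht0]
    refine Prod.ext h2 ?_
    funext j
    cases j with
    | zero => exact h4 ht0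
    | succ j => exact h3 j

theorem unode_cone (ω : Conf) (u v : Vert) :
    (unode (coneAt v ω) u).1 = (unode ω (u ++ v)).1 ∧
    (∀ j, (unode (coneAt v ω) u).2 (j + 1) = (unode ω (u ++ v)).2 (j + 1)) ∧
    (u ≠ [] → (unode (coneAt v ω) u).2 0 = (unode ω (u ++ v)).2 0) := by
  refine ⟨rfl, fun j => ?_, fun hu => ?_⟩
  · cases u <;> cases v <;> rfl
  · cases u with
    | nil => exact absurd rfl hu
    | cons i u => rfl

theorem agr_cone (hL : level (kids ω) r = A ++ v :: B) (n : ℕ) :
    Agr1 n (carr (coneAt v ω)) (uarr ω r (A.length : ℤ)) := by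
  intro t _ x hx0 hx1
  obtain ⟨j, rfl⟩ := Int.eq_ofNat_of_zero_le hx0
  rw [DD_carr_one] at hx1
  have hj : j < (level (kids (coneAt v ω)) t).length := by exact_mod_cast hx1
  have h1 := carr_eq (coneAt v ω) hj
  have h2 : uarr ω r (A.length : ℤ) t (j : ℤ) = unode ω ((level (kids (coneAt v ω)) t)[j] ++ v) := by
    unfold uarr
    rw [uvert_cone hL hj]
  rw [h1, h2]
  obtain ⟨h3, h4, h5⟩ := unode_cone ω ((level (kids (coneAt v ω)) t)[j]) v
  refine ⟨h3, h4, fun ht => h5 ?_⟩
  intro h6
  have h7 := length_of_mem_level (List.getElem_mem hj)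
  rw [h6] at h7
  simp at h7
  omega

theorem ocross_cone_iff (hCD : ColDepStmt) (p : ℝ) (hL : level (kids ω) r = A ++ v :: B) (n : ℕ) :
    (strip p (carr (coneAt v ω))).OCross 0 1 n ↔
      (strip p (uarr ω r (A.length : ℤ))).OCross 0 1 n :=
  ⟨ocross_congr hCD (agr_cone hL n), ocross_congr hCD (agr_cone hL n).symm⟩

end CausalPerc.Thr
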