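import Pool.Agent.Lib.MP_a51368_pr.Thr.ConeCol
import Pool.Agent.Lib.MP_a51368_pr.Thr.ColOne
import Pool.Agent.Lib.MP_a51368_pr.Neg.HasInfN

/-!
# Good cones for every parameter with an infinite oriented cluster in a column
-/

open MeasureTheory ProbabilityTheory Set Filter Topology

noncomputable section

namespace CausalPerc.Thr

open CausalPerc.Neg

theorem measurable_unode (v : Vert) : Measurable (fun ω : Conf => unode ω v) := by
  refine (measurable_kids v).prodMk ?_
  rw [measurable_pi_iff]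
  intro j
  cases j with
  | zero =>
    cases v with
    | nil => exact (measurable_pi_apply (Slot.hor 0)).comp (measurable_snd.comp (measurable_node []))
    | cons i u =>
      exact (measurable_pi_apply (Slot.hor i)).comp (measurable_snd.comp (measurable_node u))
  | succ j =>
    have hs : ∀ s : Slot, Measurable (fun ω : Conf => (ω v).2 s) := fun s =>
      (measurable_pi_apply s).comp (measurable_snd.comp (measurable_node v))
    refine Measurable.ite ?_ (hs _) (Measurable.ite ?_ (hs _) (hs _))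
    · exact measurable_kids v (MeasurableSpace.measurableSet_top (s := {n : ℕ | j < n}))
    · exact measurable_kids v (MeasurableSpace.measurableSet_top (s := {n : ℕ | j = n}))

theorem measurable_carr : Measurable carr := by
  rw [measurable_pi_iff]
  intro t
  rw [measurable_pi_iff]
  intro x
  have h1 : Measurable (fun ω : Conf => (level (kids ω) t).getD x.toNat []) :=
    (Measurable.of_discrete (f := fun l : List Vert => l.getD x.toNat [])).comp
      (measurable_level t)
  exact measurable_comp_countable (G := fun v ω => unode ω v) h1 measurable_unode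

/-- The event that the cone of the root contains an infinite oriented open path. -/
def Qc (p : ℝ) : Set Conf := carr ⁻¹' G p 1

theorem meas_Qc (hM : MeasStmt) (p : ℝ) : MeasurableSet (Qc p) := measurable_carr (meas_G hM p 1)

theorem law_level_one {α : ℝ} (h0 : 0 < α) (h1 : α < 1) :
    0 < law α {ω | level (kids ω) 1 = [[0]]} := by
  have : GoodParam α := ⟨h0, h1⟩
  have e1 : {ω : Conf | (ω []).1 ∈ ({1} : Set ℕ)} ⊆ {ω | level (kids ω) 1 = [[0]]} := by
    intro ω hω
    have h2 : kids ω [] = 1 := hω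
    show level (kids ω) 1 = [[0]]
    simp [level, h2]
  refine lt_of_lt_of_le ?_ (measure_mono e1)
  have e2 : law α {ω : Conf | (ω []).1 ∈ ({1} : Set ℕ)} = nodeLaw α {x | x.1 ∈ ({1} : Set ℕ)} := by
    have h3 : (law α).map (fun ω : Conf => ω []) = nodeLaw α :=
      Measure.infinitePi_map_eval (fun _ : Vert => nodeLaw α) []
    have hm : Measurable (fun ω : Conf => ω []) := measurable_pi_apply []
    have hms : MeasurableSet {x : Node | x.1 ∈ ({1} : Set ℕ)} :=
      measurable_fst (measurableSet_singleton 1)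
    rw [← h3, Measure.map_apply hm hms]
    rfl
  have e3 : {x : Node | x.1 ∈ ({1} : Set ℕ)} = ({1} : Set ℕ) ×ˢ univ := by
    ext x; simp
  rw [e2, e3]
  unfold nodeLaw
  rw [Measure.prod_prod, geo_singleton, measure_univ, mul_one, ENNReal.ofReal_pos]
  have : 0 < 1 - α := by linarith
  positivity

theorem law_Qc_pos (hM : MeasStmt) (hCD : ColDepStmt) (hWL : WindowLawStmt) {α p : ℝ}
    (h0 : 0 < α) (h1 : α < 1) (hG : 0 < arrLaw α (G p 1)) : 0 < law α (Qc p) := by
  have : GoodParam α := ⟨h0, h1⟩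
  set F : ℕ → Set Arr := fun n => {ω | (strip p ω).OCross 0 ((1 : ℕ) : ℤ) n} with hF
  have hFm : ∀ n, MeasurableSet (F n) := fun n => (hM.2.2.2 p n 0 ((1 : ℕ) : ℤ)).2.2.2.2.2.1
  have hFd : ∀ n, ColDep ((1 : ℕ) : ℤ) n (F n) := fun n => (hCD p n ((1 : ℕ) : ℤ) (by norm_num)).2.2.1
  have hanti : Antitone F := fun m n hmn ω hω => HasInfX.ocross_anti hmn hω
  have hQ : Qc p = ⋂ n, carr ⁻¹' F n := by
    ext ω
    simp only [Qc, G, hF, mem_preimage, mem_ofPred_eq, mem_iInter]
  have key : ∀ n, law α {ω | level (kids ω) 1 = [[0]]} * arrLaw α (G p 1) ≤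
      law α (carr ⁻¹' F n) := by
    intro n
    have h2 := hWL α h0 h1 1 [[0]] 0 1 n (F n) le_rfl le_rfl (hFm n) (hFd n)
    have h3 : {ω : Conf | level (kids ω) 1 = [[0]] ∧ uarr ω 1 0 ∈ F n} ⊆
        coneAt [0] ⁻¹' (carr ⁻¹' F n) := by
      rintro ω ⟨h4, h5⟩
      have h6 : level (kids ω) 1 = [] ++ [0] :: [] := h4
      have h7 := (ocross_cone_iff hCD p h6 n).2
      have h8 : (strip p (uarr ω 1 0)).OCross 0 1 n := by
        have h9 : (strip p (uarr ω 1 0)).OCross 0 ((1 : ℕ) : ℤ) n := h5
        simpa using h9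
      have h10 := h7 (by simpa using h8)
      show (strip p (carr (coneAt [0] ω))).OCross 0 ((1 : ℕ) : ℤ) n
      simpa using h10
    calc law α {ω | level (kids ω) 1 = [[0]]} * arrLaw α (G p 1)
        ≤ law α {ω | level (kids ω) 1 = [[0]]} * arrLaw α (F n) := by
          gcongr
          exact fun ω hω => hω n
      _ = law α {ω | level (kids ω) 1 = [[0]] ∧ uarr ω 1 0 ∈ F n} := h2.symm
      _ ≤ law α (coneAt [0] ⁻¹' (carr ⁻¹' F n)) := measure_mono h3
      _ = law α (carr ⁻¹' F n) := law_coneAt α [0] (measurable_carr (hFm n))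
  have h2 : law α {ω | level (kids ω) 1 = [[0]]} * arrLaw α (G p 1) ≤ law α (Qc p) := by
    have hant : Antitone fun n => (carr ⁻¹' F n : Set Conf) :=
      fun m n hmn => preimage_mono (hanti hmn)
    rw [hQ, hant.measure_iInter (fun n => (measurable_carr (hFm n)).nullMeasurableSet)
      ⟨0, measure_ne_top _ _⟩]
    exact le_iInf key
  exact lt_of_lt_of_le (ENNReal.mul_pos (law_level_one h0 h1).ne' hG.ne') h2

/-- On `Qc` all generations are nonempty. -/
theorem level_ne_of_Qc {p : ℝ} {ω : Conf} (h : ω ∈ Qc p) (n : ℕ) : level (kids ω) n ≠ [] := by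
  obtain ⟨x, y, h1, h2, h3⟩ := h (n + 1)
  have h4 : (n + 1, y) ∈ (strip p (carr ω)).col 0 ((1 : ℕ) : ℤ) := by
    rcases Relation.ReflTransGen.cases_tail h3 with h5 | ⟨c, _, h5⟩
    · simp at h5
    · exact h5.2.1
  have h5 : DD (carr ω) (n + 1) 0 ≤ y ∧ y < DD (carr ω) (n + 1) ((1 : ℕ) : ℤ) := by
    rw [Strip.mem_col, strip_D, strip_D] at h4
    exact h4
  have h6 : DD (carr ω) (n + 1) 0 = 0 := by
    have : ∀ t, DD (carr ω) t 0 = 0 := by
      intro t
      induction t with
      | zero => rfl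
      | succ t ih =>
        show ps _ (DD (carr ω) t 0) = 0
        rw [ih, ps_zero]
    exact this _
  rw [h6] at h5
  have h7 : ((1 : ℕ) : ℤ) = 1 := by norm_num
  rw [h7, DD_carr_one] at h5
  refine level_ne_of_le (Nat.le_succ n) (List.ne_nil_of_length_pos ?_)
  have : (0 : ℤ) < ((level (kids ω) (n + 1)).length : ℤ) := lt_of_le_of_lt h5.1 h5.2
  exact_mod_cast this

theorem cluster_infinite_of_Qc (hU : UnrollStmt) (hRc : RecentreStmt) (hCD : ColDepStmt) {p : ℝ}
    {ω : Conf} {v : Vert} (hv : InTree (kids ω) v) (hr : 1 ≤ v.length)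
    (h : coneAt v ω ∈ Qc p) : (cluster p ω v).Infinite := by
  obtain ⟨A, B, hL⟩ := List.append_of_mem (show v ∈ level (kids ω) v.length from hv)
  have hne : ∀ t, level (kids ω) (v.length + t) ≠ [] := by
    intro t h0
    have h1 := level_split hL t
    rw [h0] at h1
    have h2 := level_ne_of_Qc h t
    rw [kids_coneAt] at h2
    have h3 := (List.append_eq_nil_iff.1 h1.symm).2
    have h4 := (List.append_eq_nil_iff.1 h3).1
    exact h2 (List.map_eq_nil_iff.1 h4)
  have hs : Survives ω := fun t => level_ne_of_le (Nat.le_add_left t v.length) (hne t)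
  obtain ⟨E, _, _, hproj, _, harr, _, hlev, _, _⟩ := hU p ω v.length hr hs
  have hstart : uvert ω v.length (0, (A.length : ℤ)) = v := by
    have hj : A.length < uZ ω v.length 0 := by
      show A.length < (level (kids ω) v.length).length
      rw [hL]
      simp
    rw [uvert_rep (q := 0) hj (by simp)]
    have h2 : (level (kids ω) (v.length + 0))[A.length]? = some v := by
      show (level (kids ω) v.length)[A.length]? = some v
      rw [hL]
      simp
    rw [List.getElem?_eq_getElem hj] at h2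
    exact Option.some_injective _ h2
  rw [← hstart]
  refine infinite_of_lengths fun n => ?_
  have h1 : (strip p (carr (coneAt v ω))).OCross 0 1 n := by
    have h2 : (strip p (carr (coneAt v ω))).OCross 0 ((1 : ℕ) : ℤ) n := h n
    simpa using h2
  obtain ⟨x, y, hx0, hx1, hy⟩ := (ocross_cone_iff hCD p hL n).1 h1
  have hx : x = 0 := by omega
  subst hx
  rw [harr] at hy
  have h4 := ((hRc E (A.length : ℤ)).2.2.1 n 0 1 (0, 0) (n, y)).1 hy
  have h5 : ∀ (R : Set (ℕ × ℤ)) (u w : ℕ × ℤ), E.OConn n R u w →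
      Relation.ReflTransGen (CausalPerc.Step p ω) (uvert ω v.length u) (uvert ω v.length w) := by
    intro R u w huv
    induction huv with
    | refl => exact .refl
    | tail _ hbc ih => exact ih.tail (hproj n _ _ ⟨mem_univ _, mem_univ _, hbc.2.2⟩)
  refine ⟨uvert ω v.length (n, y + E.D n (A.length : ℤ)), ?_, ?_⟩
  · have h6 := h5 _ _ _ h4
    have h7 : ((0 : ℕ × ℤ).1, (0 : ℤ) + E.D (0 : ℕ) (A.length : ℤ)) = (0, (A.length : ℤ)) := by
      show (0, (0 : ℤ) + (A.length : ℤ)) = (0, (A.length : ℤ))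
      rw [zero_add]
    have h8 : ((0 : ℕ), (0 : ℤ) + E.D 0 (A.length : ℤ)) = (0, (A.length : ℤ)) := by
      show (0, (0 : ℤ) + (A.length : ℤ)) = (0, (A.length : ℤ))
      rw [zero_add]
    simp only [] at h6
    rw [h8] at h6
    exact h6
  · have h6 := length_of_mem_level (hlev n (y + E.D n (A.length : ℤ)))
    omega

/-- The good cone event. -/
def Qg (p : ℝ) : Set Conf :=
  {ω | 0 < kids ω [] ∧ lab ω [] (.tree 0) ≤ p} ∩ coneAt [0] ⁻¹' Qc p

theorem exists_goodCone_of_colInf (hU : UnrollStmt) (hRc : RecentreStmt) (hM : MeasStmt)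
    (hSS : StripShiftStmt) (hSp : SplitStmt) (hCD : ColDepStmt) (hWL : WindowLawStmt) (α : ℝ)
    [GoodParam α] {p : ℝ} (hp : 0 < p) (hp1 : p ≤ 1) (hC : ColInf α p) : ∃ Q, GoodCone α p Q := by
  have h0 : 0 < α := GoodParam.pos
  have h1 : α < 1 := GoodParam.lt_one
  have hroot : MeasurableSet {ω : Conf | 0 < kids ω [] ∧ lab ω [] (.tree 0) ≤ p} := by
    have : {ω : Conf | 0 < kids ω [] ∧ lab ω [] (.tree 0) ≤ p} =
        {ω : Conf | 0 < kids ω []} ∩ {ω : Conf | lab ω [] (.tree 0) ≤ p} := rfl
    rw [this]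
    exact (measurable_kids [] (MeasurableSpace.measurableSet_top (s := {n : ℕ | 0 < n}))).inter
      (measurableSet_lab_le _ _ _)
  have hQm := meas_Qc hM p
  refine ⟨Qg p, hroot.inter (measurable_coneAt [0] hQm), ?_, ?_⟩
  · unfold Qg
    rw [law_inter α (S := {[]}) (T := {v | [0] <:+ v}) ?_ hroot (measurable_coneAt [0] hQm) ?_
      (dep_coneAt [0] _), law_coneAt α [0] hQm]
    · refine ENNReal.mul_pos ?_ (law_Qc_pos hM hCD hWL h0 h1 (colOne hM hSS hSp h0 h1 hp hC)).ne'
      have e2 : law α {ω : Conf | 0 < kids ω [] ∧ lab ω [] (.tree 0) ≤ p} =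
          nodeLaw α ({k | 0 < k} ×ˢ {f | (f (.tree 0) : ℝ) ≤ p}) := by
        have h3 : (law α).map (fun ω : Conf => ω []) = nodeLaw α :=
          Measure.infinitePi_map_eval (fun _ : Vert => nodeLaw α) []
        have hm : Measurable (fun ω : Conf => ω []) := measurable_pi_apply []
        have hms : MeasurableSet (({k : ℕ | 0 < k} : Set ℕ) ×ˢ
            {f : Slot → unitInterval | (f (.tree 0) : ℝ) ≤ p}) :=
          (MeasurableSet.of_discrete).prod (measurableSet_open_slot p _)
        rw [← h3, Measure.map_apply hm hms]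
        rfl
      rw [e2]
      unfold nodeLaw
      rw [Measure.prod_prod, geo_gt, labLaw_open hp.le hp1]
      refine mul_ne_zero ?_ ?_
      · rw [ne_eq, ENNReal.ofReal_eq_zero, not_le]
        positivity
      · rw [ne_eq, ENNReal.ofReal_eq_zero, not_le]
        exact hp
    · rw [Set.disjoint_left]
      intro v hv hv2
      have h3 : v = [] := hv
      have h4 := List.IsSuffix.length_le hv2
      rw [h3] at h4
      simp at h4
    · intro ω ω' h hω
      have h3 : ω [] = ω' [] := h [] rfl
      show 0 < (ω' []).1 ∧ (((ω' []).2 (.tree 0) : unitInterval) : ℝ) ≤ p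
      rw [← h3]
      exact hω
  · rintro ω w hw ⟨⟨h2, h3⟩, h4⟩
    have h5 : coneAt ([0] ++ w) ω ∈ Qc p := by
      rw [← coneAt_coneAt]
      exact h4
    have h6 : 0 < kids ω w := by
      have : kids (coneAt w ω) [] = kids ω w := rfl
      rwa [this] at h2
    have h7 : lab ω w (.tree 0) ≤ p := h3
    have h8 : InTree (kids ω) ([0] ++ w) := inTree_cons.2 ⟨hw, h6⟩
    have h9 := cluster_infinite_of_Qc hU hRc hCD h8 (by simp) h5
    refine h9.mono ?_
    intro x hx
    refine Relation.ReflTransGen.head (Or.inl ⟨hw, Or.inl ⟨0, h6, rfl, h7⟩⟩) hx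

end CausalPerc.Thr
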