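import Pool.Agent.Lib.MP_a51368_pr.Thr.ConeLaw
import Pool.Agent.Lib.MP_a51368_pr.Neg.AllN
import Pool.Agent.Lib.MP_a51368_pr.Uniq

/-!
# The threshold structure for every offspring parameter
-/

open MeasureTheory Set

namespace CausalPerc.Thr

open CausalPerc.Neg

/-- Above the critical value there is a good cone, for every parameter. -/
theorem exists_goodCone_above (α : ℝ) (h1 : 1 / 2 < α) (h2 : α < 1) [GoodParam α] {p : ℝ}
    (hp : pc α < p) (hp1 : p ≤ 1) : ∃ Q, GoodCone α p Q := by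
  have hpc0 : 0 ≤ pc α := Real.sSup_nonneg fun x hx => hx.1
  have hp0 : 0 < p := by linarith
  rcases hp1.eq_or_lt with rfl | hp1'
  · exact exists_goodCone α zero_le_one le_rfl (by linarith)
  have hP : ParityStmt := parity
  have hDF : DFirstStmt := dfirst
  have hRc : RecentreStmt := recentreS
  have hSS : StripShiftStmt := stripShift
  have hCD : ColDepStmt := colDep
  have hMe : MeasStmt := meas
  have hAd : AdaptedStmt := adapted
  have hCs : CshiftStmt := cshift_law hAd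
  have hSp : SplitStmt := split
  have hX : ExitStmt := exitB hSp hCs
  have hU : UnrollStmt := unroll
  have hWL : WindowLawStmt := windowLaw
  have hGr : GrowthStmt := growth
  have hTZ : ThetaZeroStmt := thetaZero hU hWL hGr hX hSS hRc hMe hCs
  have hC : ColInf α p := by
    by_contra hcon
    have h3 := hTZ α p h1 h2 hp0.le hp1' hcon
    have h4 : p ≤ pc α := le_csSup ⟨1, fun x hx => hx.2.1⟩ ⟨hp0.le, hp1, h3⟩
    linarith
  exact exists_goodCone_of_colInf hU hRc hMe hSS hSp hCD hWL α hp0 hp1 hC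

theorem pc_le_half (α : ℝ) (h2 : α < 1) (h3 : 317 / 500 ≤ α) [GoodParam α] :
    pc α ≤ 1 / 2 := by
  refine pc_le α (by norm_num) fun p hp hp1 => ?_
  refine exists_goodCone1 α (p := p) (by linarith) hp1 ?_
  have e1 : 0 ≤ α ^ 2 - (317 / 500) ^ 2 := by nlinarith
  by_cases h4 : p ≤ 3 / 5
  · have e2 : 1 / 8 ≤ (1 - p) * p ^ 2 := by
      nlinarith [mul_nonneg (sub_nonneg.2 hp.le) (sub_nonneg.2 h4)]
    nlinarith
  · push Not at h4
    have e2 : 0 ≤ (1 - p) * p ^ 2 := mul_nonneg (by linarith) (sq_nonneg p)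
    nlinarith [mul_nonneg (sq_nonneg α) e2]

theorem pc_lt_one (α : ℝ) (h1 : 1 / 2 < α) (h2 : α < 1) [GoodParam α] : pc α < 1 := by
  have ha : 0 < α := by linarith
  have h3 : pc α ≤ (1 - α) / α := by
    refine pc_le α (div_nonneg (by linarith) ha.le) fun p hp hp1 => ?_
    have h4 : 0 ≤ (1 - α) / α := div_nonneg (by linarith) ha.le
    rw [div_lt_iff₀ ha] at hp
    exact exists_goodCone α (by
      by_contra hcon
      push Not at hcon
      nlinarith) hp1 (by linarith [mul_comm p α])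
  refine lt_of_le_of_lt h3 ?_
  rw [div_lt_one ha]
  linarith

/-- For every offspring parameter there is a threshold `pu < 1`, possibly equal to the critical
value. -/
theorem threshold (α : ℝ) (h1 : 1 / 2 < α) (h2 : α < 1) :
    ∃ pu : ℝ, pc α ≤ pu ∧ pu < 1 ∧ (317 / 500 ≤ α → pu ≤ 1 / 2) ∧
      (∀ p, pu < p → p ≤ 1 → condLaw α {ω | numInf p ω = 1} = 1) ∧
      (∀ p, pc α < p → p < pu → condLaw α {ω | numInf p ω = 1} < 1) := by
  have : GoodParam α := ⟨by linarith, h2⟩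
  obtain ⟨q, hq1, hq2, hq3⟩ := uniqueness_phase α h1 h2
  have hpc1 := pc_lt_one α h1 h2
  obtain ⟨Q1, hQ1⟩ := exists_goodCone_above α h1 h2 hpc1 le_rfl
  have hs := law_survives_pos α hQ1
  set S : Set ℝ := {p | pc α < p ∧ p ≤ 1 ∧ law α (notOne p) ≠ 0} with hS
  have hSq : ∀ p ∈ S, p ≤ q := by
    rintro p ⟨_, h3, h4⟩
    by_contra hcon
    push Not at hcon
    exact h4 ((condLaw_eq_one_iff α hs p).1 (hq3 p hcon h3))
  have hSb : BddAbove S := ⟨q, hSq⟩
  have hone : ∀ p, pc α < p → p ≤ 1 → p ∉ S → condLaw α {ω | numInf p ω = 1} = 1 := by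
    intro p h3 h4 h5
    rw [condLaw_eq_one_iff α hs]
    by_contra hcon
    exact h5 ⟨h3, h4, hcon⟩
  by_cases hne : S.Nonempty
  · obtain ⟨p0, hp0⟩ := hne
    have hpcS : pc α < sSup S := lt_of_lt_of_le hp0.1 (le_csSup hSb hp0)
    refine ⟨sSup S, hpcS.le, lt_of_le_of_lt (csSup_le ⟨p0, hp0⟩ hSq) hq1,
      fun h3 => (csSup_le ⟨p0, hp0⟩ hSq).trans (hq2 h3).le, ?_, ?_⟩
    · intro p h3 h4
      exact hone p (hpcS.trans h3) h4 fun h5 => absurd (le_csSup hSb h5) (not_le.2 h3)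
    · intro p h3 h4
      obtain ⟨p', hp', hpp'⟩ := exists_lt_of_lt_csSup ⟨p0, hp0⟩ h4
      obtain ⟨Q, hQ⟩ := exists_goodCone_above α h1 h2 h3 (by linarith [hp'.2.1])
      obtain ⟨Q', hQ'⟩ := exists_goodCone_above α h1 h2 hp'.1 hp'.2.1
      rw [condLaw_lt_one_iff α hs]
      exact notOne_mono α hpp'.le hQ hQ' hp'.2.2
  · refine ⟨pc α, le_rfl, hpc1, fun h3 => pc_le_half α h2 h3, ?_, ?_⟩
    · intro p h3 h4
      exact hone p h3 h4 fun h5 => hne ⟨p, h5⟩
    · intro p h3 h4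
      exact absurd (h3.trans h4) (lt_irrefl _)

end CausalPerc.Thr
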